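import Pool.Agent.LE.StmtsQD

/-!
# BE2: the mean square of the Bessel kernel over a dyadic block
-/

set_option autoImplicit false

open MeasureTheory Set Function

noncomputable section

namespace Pool.Agent.LE.QD.H90

/-- Fubini for continuous functions on a rectangle. -/
theorem swap2 (f : ℝ → ℝ → ℂ) (hf : Continuous (uncurry f)) {a b c d : ℝ} (hab : a ≤ b)
    (hcd : c ≤ d) :
    ∫ x in a..b, ∫ y in c..d, f x y = ∫ y in c..d, ∫ x in a..b, f x y := by
  simp only [intervalIntegral.integral_of_le hab, intervalIntegral.integral_of_le hcd]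
  refine integral_integral_swap ?_
  rw [Measure.prod_restrict]
  exact (hf.continuousOn.integrableOn_compact (isCompact_Icc.prod isCompact_Icc)).mono_set
    (prod_mono Ioc_subset_Icc_self Ioc_subset_Icc_self)

/-- the weight -/
def wt (R t : ℝ) : ℝ := 1 - t ^ 2 / R ^ 2

/-- its Fourier transform -/
theorem wt_hat {R : ℝ} (hR : 1 ≤ R) (u : ℝ) :
    ‖∫ t in (-R)..R, (wt R t : ℂ) * Complex.exp (Complex.I * ((t * u : ℝ) : ℂ))‖ ≤
      16 * R / (1 + R ^ 2 * u ^ 2) := by
  have hR0 : 0 < R := by linarith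
  have hpos : 0 < 1 + R ^ 2 * u ^ 2 := by positivity
  by_cases hu : R * |u| ≤ 1
  · -- trivial bound
    have h1 : ‖∫ t in (-R)..R, (wt R t : ℂ) * Complex.exp (Complex.I * ((t * u : ℝ) : ℂ))‖ ≤
        1 * |R - (-R)| := by
      refine intervalIntegral.norm_integral_le_of_norm_le_const fun t ht => ?_
      rw [uIoc_of_le (by linarith)] at ht
      rw [norm_mul, mul_comm Complex.I, Complex.norm_exp_ofReal_mul_I, mul_one, Complex.norm_real,
        Real.norm_eq_abs, wt, abs_le]
      have h2 : t ^ 2 / R ^ 2 ≤ 1 := by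
        rw [div_le_one (by positivity)]
        nlinarith [ht.1, ht.2]
      have h3 : 0 ≤ t ^ 2 / R ^ 2 := by positivity
      constructor <;> linarith
    have h2 : R ^ 2 * u ^ 2 ≤ 1 := by
      have : (R * |u|) ^ 2 ≤ 1 := by
        have h0 : 0 ≤ R * |u| := by positivity
        nlinarith
      rwa [mul_pow, sq_abs] at this
    have h3 : |R - (-R)| = 2 * R := by
      rw [abs_of_nonneg (by linarith)]
      ring
    rw [h3] at h1
    refine h1.trans ?_
    rw [le_div_iff₀ hpos]
    nlinarith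
  · have hu1 : 1 < R * |u| := not_le.1 hu
    have hu0 : u ≠ 0 := by
      rintro rfl
      norm_num at hu1
    have hua : 0 < |u| := abs_pos.2 hu0
    have huc : (u : ℂ) ≠ 0 := by exact_mod_cast hu0
    have hRc : (R : ℂ) ≠ 0 := by exact_mod_cast hR0.ne'
    -- antiderivative
    let F : ℝ → ℂ := fun t => Complex.exp (Complex.I * ((t : ℂ) * u)) *
      ((1 - (t : ℂ) ^ 2 / R ^ 2) / (Complex.I * u) - 2 * (t : ℂ) / (R ^ 2 * u ^ 2) -
        2 * Complex.I / (R ^ 2 * (u : ℂ) ^ 3))
    have hF : ∀ t : ℝ, HasDerivAt F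
        ((wt R t : ℂ) * Complex.exp (Complex.I * ((t * u : ℝ) : ℂ))) t := by
      intro t
      have hid : HasDerivAt (fun s : ℝ => (s : ℂ)) 1 t := Complex.ofRealCLM.hasDerivAt
      have h1 : HasDerivAt (fun s : ℝ => Complex.exp (Complex.I * ((s : ℂ) * u)))
          (Complex.exp (Complex.I * ((t : ℂ) * u)) * (Complex.I * (1 * u))) t :=
        ((hid.mul_const (u : ℂ)).const_mul Complex.I).cexp
      have h2 : HasDerivAt (fun s : ℝ => (1 - (s : ℂ) ^ 2 / R ^ 2) / (Complex.I * u) -
          2 * (s : ℂ) / (R ^ 2 * u ^ 2) - 2 * Complex.I / (R ^ 2 * (u : ℂ) ^ 3))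
          ((0 - ((2 : ℕ) * (t : ℂ) ^ (2 - 1) * 1) / R ^ 2) / (Complex.I * u) -
          2 * 1 / (R ^ 2 * u ^ 2)) t := by
        refine HasDerivAt.sub_const _ (HasDerivAt.sub ?_ ?_)
        · exact (((hasDerivAt_const t (1 : ℂ)).sub ((hid.pow 2).div_const _)).div_const _)
        · exact ((hid.const_mul (2 : ℂ)).div_const _)
      have h3 := h1.mul h2
      refine h3.congr_deriv ?_
      rw [wt]
      push_cast
      have hI : Complex.I ^ 3 = -Complex.I := Complex.I_pow_three
      field_simp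
      ring_nf
      simp only [hI, Complex.I_sq]
      ring
    have hcont : Continuous fun t : ℝ =>
        (wt R t : ℂ) * Complex.exp (Complex.I * ((t * u : ℝ) : ℂ)) := by
      unfold wt
      fun_prop
    have hint := intervalIntegral.integral_eq_sub_of_hasDerivAt
      (fun t _ => hF t) (hcont.intervalIntegrable (-R) R)
    have hnorm : ∀ t : ℝ, |t| = R → ‖F t‖ ≤ 4 / (R * u ^ 2) := by
      intro t ht
      have ht2 : t ^ 2 = R ^ 2 := by rw [← sq_abs, ht]
      have ht2c : (t : ℂ) ^ 2 = (R : ℂ) ^ 2 := by exact_mod_cast ht2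
      have he : ‖Complex.exp (Complex.I * ((t : ℂ) * u))‖ = 1 := by
        have : Complex.I * ((t : ℂ) * u) = ((t * u : ℝ) : ℂ) * Complex.I := by
          push_cast
          ring
        rw [this, Complex.norm_exp_ofReal_mul_I]
      have hval : (1 - (t : ℂ) ^ 2 / R ^ 2) / (Complex.I * u) - 2 * (t : ℂ) / (R ^ 2 * u ^ 2) -
          2 * Complex.I / (R ^ 2 * (u : ℂ) ^ 3) =
          - (2 * (t : ℂ) / (R ^ 2 * u ^ 2) + 2 * Complex.I / (R ^ 2 * (u : ℂ) ^ 3)) := by
        rw [ht2c, div_self (pow_ne_zero 2 hRc)]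
        ring
      show ‖Complex.exp (Complex.I * ((t : ℂ) * u)) * _‖ ≤ _
      rw [norm_mul, he, one_mul, hval, norm_neg]
      have e1 : ‖2 * (t : ℂ) / (R ^ 2 * u ^ 2)‖ = 2 / (R * u ^ 2) := by
        rw [norm_div, norm_mul, norm_mul, norm_pow, norm_pow, Complex.norm_real, Complex.norm_real,
          Complex.norm_real, Real.norm_eq_abs, Real.norm_eq_abs, Real.norm_eq_abs, ht, sq_abs,
          sq_abs]
        norm_num
        field_simp
      have e2 : ‖2 * Complex.I / (R ^ 2 * (u : ℂ) ^ 3)‖ = 2 / (R ^ 2 * |u| ^ 3) := by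
        rw [norm_div, norm_mul, norm_mul, norm_pow, norm_pow, Complex.norm_real,
          Complex.norm_real, Complex.norm_I, Real.norm_eq_abs, Real.norm_eq_abs, sq_abs]
        norm_num
      have e3 : 2 / (R ^ 2 * |u| ^ 3) ≤ 2 / (R * u ^ 2) := by
        apply div_le_div_of_nonneg_left (by norm_num) (by positivity)
        have : R ^ 2 * |u| ^ 3 = (R * |u|) * (R * u ^ 2) := by
          rw [← sq_abs u]
          ring
        rw [this]
        nlinarith [mul_pos hR0 (pow_pos hua 2), sq_abs u]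
      calc _ ≤ ‖2 * (t : ℂ) / (R ^ 2 * u ^ 2)‖ + ‖2 * Complex.I / (R ^ 2 * (u : ℂ) ^ 3)‖ :=
            norm_add_le _ _
        _ ≤ 2 / (R * u ^ 2) + 2 / (R * u ^ 2) := by
            rw [e1, e2]
            linarith
        _ = 4 / (R * u ^ 2) := by ring
    rw [hint]
    have h1 := hnorm R (abs_of_pos hR0)
    have h2 := hnorm (-R) (by rw [abs_neg, abs_of_pos hR0])
    have h3 : ‖F R - F (-R)‖ ≤ 8 / (R * u ^ 2) := by
      calc _ ≤ ‖F R‖ + ‖F (-R)‖ := norm_sub_le _ _
        _ ≤ 4 / (R * u ^ 2) + 4 / (R * u ^ 2) := add_le_add h1 h2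
        _ = _ := by ring
    refine h3.trans ?_
    have hu2 : 0 < u ^ 2 := by positivity
    rw [div_le_div_iff₀ (by positivity) hpos]
    have h4 : 1 ≤ R ^ 2 * u ^ 2 := by
      have : 1 < (R * |u|) ^ 2 := by nlinarith
      rw [mul_pow, sq_abs] at this
      exact this.le
    nlinarith

/-- `∫ 1 / (1 + (a (θ - b))²)` -/
theorem int_arctan {a : ℝ} (ha : 0 < a) (b p q : ℝ) :
    ∫ x in p..q, 1 / (1 + (a * (x - b)) ^ 2) ≤ Real.pi / a := by
  have hd : ∀ x : ℝ, HasDerivAt (fun x : ℝ => Real.arctan (a * (x - b)) / a)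
      (1 / (1 + (a * (x - b)) ^ 2)) x := by
    intro x
    have h1 : HasDerivAt (fun x : ℝ => a * (x - b)) (a * 1) x :=
      ((hasDerivAt_id x).sub_const b).const_mul a
    have h2 := (h1.arctan).div_const a
    refine h2.congr_deriv ?_
    field_simp
  have hc : Continuous fun x : ℝ => 1 / (1 + (a * (x - b)) ^ 2) := by
    refine continuous_const.div (by fun_prop) fun x => ?_
    positivity
  rw [intervalIntegral.integral_eq_sub_of_hasDerivAt (fun x _ => hd x) (hc.intervalIntegrable _ _),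
    ← sub_div]
  refine div_le_div_of_nonneg_right ?_ ha.le
  have h1 := Real.arctan_lt_pi_div_two (a * (q - b))
  have h2 := Real.neg_pi_div_two_lt_arctan (a * (p - b))
  linarith

/-- the integral over `θ` -/
theorem inner_bound {c : ℝ} (hc : 0 ≤ c) :
    ∫ θ in (0 : ℝ)..(2 * Real.pi), 1 / (1 + c ^ 2 * Real.sin θ ^ 2) ≤ 30 / (1 + c) := by
  have hpi := Real.pi_pos
  have hpi4 : Real.pi < 3.15 := Real.pi_lt_d2
  have hcont : Continuous fun θ : ℝ => 1 / (1 + c ^ 2 * Real.sin θ ^ 2) := by
    refine continuous_const.div (by fun_prop) fun x => ?_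
    positivity
  rcases le_or_gt c 1 with h1 | h1
  · have h2 : ∫ θ in (0 : ℝ)..(2 * Real.pi), 1 / (1 + c ^ 2 * Real.sin θ ^ 2) ≤
        ∫ θ in (0 : ℝ)..(2 * Real.pi), (1 : ℝ) := by
      refine intervalIntegral.integral_mono_on (by positivity) (hcont.intervalIntegrable _ _)
        (continuous_const.intervalIntegrable _ _) fun x _ => ?_
      rw [div_le_one (by positivity)]
      have : 0 ≤ c ^ 2 * Real.sin x ^ 2 := by positivity
      linarith
    refine h2.trans ?_
    rw [intervalIntegral.integral_const, smul_eq_mul, mul_one, le_div_iff₀ (by positivity)]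
    nlinarith
  · have hc0 : 0 < c := by linarith
    set a : ℝ := 2 / Real.pi * c with ha
    have ha0 : 0 < a := by positivity
    have hterm : ∀ b : ℝ, Continuous fun x : ℝ => 1 / (1 + (a * (x - b)) ^ 2) := by
      intro b
      refine continuous_const.div (by fun_prop) fun x => ?_
      positivity
    have hpt : ∀ x ∈ Icc (0 : ℝ) (2 * Real.pi), 1 / (1 + c ^ 2 * Real.sin x ^ 2) ≤
        1 / (1 + (a * (x - 0)) ^ 2) + 1 / (1 + (a * (x - Real.pi)) ^ 2) +
          1 / (1 + (a * (x - 2 * Real.pi)) ^ 2) := by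
      intro x hx
      have key : ∀ y : ℝ, |y| ≤ Real.pi / 2 → Real.sin x ^ 2 = Real.sin y ^ 2 →
          1 / (1 + c ^ 2 * Real.sin x ^ 2) ≤ 1 / (1 + (a * y) ^ 2) := by
        intro y hy hs
        rw [hs]
        have h3 := Real.mul_abs_le_abs_sin hy
        have h4 : (2 / Real.pi * |y|) ^ 2 ≤ |Real.sin y| ^ 2 :=
          pow_le_pow_left₀ (by positivity) h3 2
        rw [sq_abs] at h4
        apply one_div_le_one_div_of_le (by positivity)
        have h5 : (a * y) ^ 2 = c ^ 2 * (2 / Real.pi * |y|) ^ 2 := by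
          rw [ha, mul_pow (2 / Real.pi) |y|, sq_abs]
          ring
        rw [h5]
        have := mul_le_mul_of_nonneg_left h4 (sq_nonneg c)
        linarith
      have p0 : 0 ≤ 1 / (1 + (a * (x - 0)) ^ 2) := by positivity
      have p1 : 0 ≤ 1 / (1 + (a * (x - Real.pi)) ^ 2) := by positivity
      have p2 : 0 ≤ 1 / (1 + (a * (x - 2 * Real.pi)) ^ 2) := by positivity
      rcases le_or_gt x (Real.pi / 2) with h | h
      · have := key (x - 0) (by rw [sub_zero, abs_of_nonneg hx.1]; exact h) (by rw [sub_zero])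
        linarith
      · rcases le_or_gt x (3 * Real.pi / 2) with h' | h'
        · have := key (x - Real.pi) (by rw [abs_le]; constructor <;> linarith)
            (by rw [Real.sin_sub_pi, neg_sq])
          linarith
        · have := key (x - 2 * Real.pi) (by
            rw [abs_le]
            constructor
            · linarith
            · have := hx.2
              linarith) (by rw [Real.sin_sub_two_pi])
          linarith
    have h2 : ∫ θ in (0 : ℝ)..(2 * Real.pi), 1 / (1 + c ^ 2 * Real.sin θ ^ 2) ≤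
        ∫ x in (0 : ℝ)..(2 * Real.pi), (1 / (1 + (a * (x - 0)) ^ 2) +
          1 / (1 + (a * (x - Real.pi)) ^ 2) + 1 / (1 + (a * (x - 2 * Real.pi)) ^ 2)) :=
      intervalIntegral.integral_mono_on (by positivity) (hcont.intervalIntegrable _ _)
        ((((hterm 0).add (hterm Real.pi)).add (hterm (2 * Real.pi))).intervalIntegrable _ _) hpt
    have h01 : Continuous fun x : ℝ => 1 / (1 + (a * (x - 0)) ^ 2) +
        1 / (1 + (a * (x - Real.pi)) ^ 2) := (hterm 0).add (hterm Real.pi)
    rw [intervalIntegral.integral_add (h01.intervalIntegrable _ _)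
      ((hterm (2 * Real.pi)).intervalIntegrable _ _),
      intervalIntegral.integral_add ((hterm 0).intervalIntegrable _ _)
      ((hterm Real.pi).intervalIntegrable _ _)] at h2
    have q0 := int_arctan ha0 0 0 (2 * Real.pi)
    have q1 := int_arctan ha0 Real.pi 0 (2 * Real.pi)
    have q2 := int_arctan ha0 (2 * Real.pi) 0 (2 * Real.pi)
    have h3 : Real.pi / a = Real.pi ^ 2 / (2 * c) := by
      rw [ha]
      field_simp
    have h4 : 3 * (Real.pi ^ 2 / (2 * c)) ≤ 30 / (1 + c) := by
      rw [← mul_div_assoc, div_le_div_iff₀ (by positivity) (by positivity)]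
      have : Real.pi ^ 2 ≤ 10 := by nlinarith
      nlinarith
    linarith

/-- `∫ 1 / (1 + R u)` -/
theorem int_log {R : ℝ} (hR : 0 < R) :
    ∫ u in (0 : ℝ)..(2 * Real.pi), 1 / (1 + R * u) = Real.log (1 + R * (2 * Real.pi)) / R := by
  have hpi := Real.pi_pos
  have hd : ∀ x ∈ uIcc (0 : ℝ) (2 * Real.pi), HasDerivAt (fun x : ℝ => Real.log (1 + R * x) / R)
      (1 / (1 + R * x)) x := by
    intro x hx
    rw [uIcc_of_le (by positivity)] at hx
    have hx0 : 0 < 1 + R * x := by
      have := mul_nonneg hR.le hx.1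
      linarith
    have h1 : HasDerivAt (fun x : ℝ => 1 + R * x) (R * 1) x :=
      ((hasDerivAt_id x).const_mul R).const_add 1
    have h2 := (h1.log hx0.ne').div_const R
    refine h2.congr_deriv ?_
    field_simp
  have hc : ContinuousOn (fun x : ℝ => 1 / (1 + R * x)) (uIcc (0 : ℝ) (2 * Real.pi)) := by
    refine continuousOn_const.div (by fun_prop) fun x hx => ?_
    rw [uIcc_of_le (by positivity)] at hx
    have := mul_nonneg hR.le hx.1
    linarith
  rw [intervalIntegral.integral_eq_sub_of_hasDerivAt hd hc.intervalIntegrable]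
  simp

/-- the integral over `u` -/
theorem outer_bound {R : ℝ} (hR : 0 < R) :
    ∫ u in (0 : ℝ)..(2 * Real.pi), 1 / (1 + 4 * R * |Real.sin (u / 2)|) ≤
      2 * (Real.log (1 + R * (2 * Real.pi)) / R) := by
  have hpi := Real.pi_pos
  have hpi4 : Real.pi < 4 := by linarith [Real.pi_lt_d2]
  have hcont : Continuous fun u : ℝ => 1 / (1 + 4 * R * |Real.sin (u / 2)|) := by
    refine continuous_const.div (by fun_prop) fun x => ?_
    positivity
  have hc1 : ContinuousOn (fun x : ℝ => 1 / (1 + R * x)) (uIcc (0 : ℝ) (2 * Real.pi)) := by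
    refine continuousOn_const.div (by fun_prop) fun x hx => ?_
    rw [uIcc_of_le (by positivity)] at hx
    have := mul_nonneg hR.le hx.1
    linarith
  have hc2 : ContinuousOn (fun x : ℝ => 1 / (1 + R * (2 * Real.pi - x)))
      (uIcc (0 : ℝ) (2 * Real.pi)) := by
    refine continuousOn_const.div (by fun_prop) fun x hx => ?_
    rw [uIcc_of_le (by positivity)] at hx
    have := mul_nonneg hR.le (sub_nonneg.2 hx.2)
    linarith
  have h2 : ∫ u in (0 : ℝ)..(2 * Real.pi), 1 / (1 + 4 * R * |Real.sin (u / 2)|) ≤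
      ∫ u in (0 : ℝ)..(2 * Real.pi), (1 / (1 + R * u) + 1 / (1 + R * (2 * Real.pi - u))) := by
    refine intervalIntegral.integral_mono_on (by positivity) (hcont.intervalIntegrable _ _)
      (hc1.intervalIntegrable.add hc2.intervalIntegrable) fun u hu => ?_
    have p1 : 0 ≤ R * u := mul_nonneg hR.le hu.1
    have p2 : 0 ≤ R * (2 * Real.pi - u) := mul_nonneg hR.le (sub_nonneg.2 hu.2)
    have key : ∀ y : ℝ, 0 ≤ y → y ≤ Real.pi → |Real.sin (u / 2)| = |Real.sin (y / 2)| →
        1 / (1 + 4 * R * |Real.sin (u / 2)|) ≤ 1 / (1 + R * y) := by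
      intro y hy0 hy hs
      rw [hs]
      have h3 := Real.mul_abs_le_abs_sin (x := y / 2) (by
        rw [abs_of_nonneg (by linarith)]
        linarith)
      rw [abs_of_nonneg (by linarith : (0 : ℝ) ≤ y / 2)] at h3
      apply one_div_le_one_div_of_le (by positivity)
      have h4 : y / 4 ≤ 2 / Real.pi * (y / 2) := by
        rw [div_mul_div_comm, div_le_div_iff₀ (by norm_num) (by positivity)]
        nlinarith
      have h5 := mul_le_mul_of_nonneg_left (h4.trans h3) (by positivity : (0 : ℝ) ≤ 4 * R)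
      linarith
    have q1 : 0 ≤ 1 / (1 + R * u) := by positivity
    have q2 : 0 ≤ 1 / (1 + R * (2 * Real.pi - u)) := by positivity
    rcases le_or_gt u Real.pi with h | h
    · have := key u hu.1 h rfl
      linarith
    · have := key (2 * Real.pi - u) (sub_nonneg.2 hu.2) (by linarith) (by
        rw [show (2 * Real.pi - u) / 2 = Real.pi - u / 2 by ring, Real.sin_pi_sub])
      linarith
  refine h2.trans (le_of_eq ?_)
  rw [intervalIntegral.integral_add hc1.intervalIntegrable hc2.intervalIntegrable,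
    intervalIntegral.integral_comp_sub_left (fun x : ℝ => 1 / (1 + R * x)) (2 * Real.pi), sub_self,
    sub_zero, int_log hR]
  ring

/-- the exponential -/
def Ex (n : ℤ) (t θ : ℝ) : ℂ :=
  Complex.exp (Complex.I * ((n * θ + 2 * t * Real.cos θ : ℝ) : ℂ))

theorem ex_cont (n : ℤ) : Continuous (uncurry (Ex n)) := by
  unfold Ex uncurry
  fun_prop

theorem ex_per (n : ℤ) (t : ℝ) : Function.Periodic (Ex n t) (2 * Real.pi) := by
  intro θ
  unfold Ex
  rw [Real.cos_add_two_pi]
  have : Complex.I * ((n * (θ + 2 * Real.pi) + 2 * t * Real.cos θ : ℝ) : ℂ) =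
      Complex.I * ((n * θ + 2 * t * Real.cos θ : ℝ) : ℂ) + n * (2 * Real.pi * Complex.I) := by
    push_cast
    ring
  rw [this, Complex.exp_periodic.int_mul n]

theorem ex_mul (n : ℤ) (t θ u : ℝ) :
    Ex n t (θ + u / 2) * (starRingEnd ℂ) (Ex n t (θ + u / 2 - u)) =
      Complex.exp (Complex.I * ((n * u : ℝ) : ℂ)) *
        Complex.exp (Complex.I * ((t * (-(4 * Real.sin θ * Real.sin (u / 2))) : ℝ) : ℂ)) := by
  unfold Ex
  rw [← Complex.exp_conj, map_mul, Complex.conj_I, Complex.conj_ofReal, ← Complex.exp_add,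
    ← Complex.exp_add]
  congr 1
  have h1 : θ + u / 2 - u = θ - u / 2 := by ring
  rw [h1, neg_mul, ← sub_eq_add_neg, ← mul_sub, ← mul_add]
  congr 1
  rw [← Complex.ofReal_sub, ← Complex.ofReal_add]
  congr 1
  rw [Real.cos_add, Real.cos_sub]
  ring

/-- the square of the norm as a double integral -/
theorem sq_eq (n : ℤ) (t : ℝ) :
    ((‖∫ θ in (0 : ℝ)..(2 * Real.pi), Ex n t θ‖ ^ 2 : ℝ) : ℂ) =
      ∫ u in (0 : ℝ)..(2 * Real.pi), ∫ θ in (0 : ℝ)..(2 * Real.pi),
        Complex.exp (Complex.I * ((n * u : ℝ) : ℂ)) *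
          Complex.exp (Complex.I * ((t * (-(4 * Real.sin θ * Real.sin (u / 2))) : ℝ) : ℂ)) := by
  have hpi := Real.pi_pos
  have hE : Continuous (Ex n t) := by
    unfold Ex
    fun_prop
  have hconj : (starRingEnd ℂ) (∫ θ in (0 : ℝ)..(2 * Real.pi), Ex n t θ) =
      ∫ θ in (0 : ℝ)..(2 * Real.pi), (starRingEnd ℂ) (Ex n t θ) := by
    rw [intervalIntegral.integral_of_le (by positivity),
      intervalIntegral.integral_of_le (by positivity), integral_conj]
  have hper : Function.Periodic (fun θ => (starRingEnd ℂ) (Ex n t θ)) (2 * Real.pi) := fun θ => by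
    show (starRingEnd ℂ) (Ex n t (θ + 2 * Real.pi)) = (starRingEnd ℂ) (Ex n t θ)
    rw [ex_per n t θ]
  have hshift : ∀ θ : ℝ, ∫ x in (0 : ℝ)..(2 * Real.pi), (starRingEnd ℂ) (Ex n t x) =
      ∫ u in (0 : ℝ)..(2 * Real.pi), (starRingEnd ℂ) (Ex n t (θ - u)) := by
    intro θ
    rw [intervalIntegral.integral_comp_sub_left (fun x : ℝ => (starRingEnd ℂ) (Ex n t x)) θ,
      sub_zero]
    have h1 := hper.intervalIntegral_add_eq (θ - 2 * Real.pi) 0
    rw [sub_add_cancel, zero_add] at h1
    exact h1.symm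
  have h1 : ((‖∫ θ in (0 : ℝ)..(2 * Real.pi), Ex n t θ‖ ^ 2 : ℝ) : ℂ) =
      ∫ θ in (0 : ℝ)..(2 * Real.pi), ∫ u in (0 : ℝ)..(2 * Real.pi),
        Ex n t θ * (starRingEnd ℂ) (Ex n t (θ - u)) := by
    rw [Complex.ofReal_pow, ← Complex.mul_conj', hconj, ← intervalIntegral.integral_mul_const]
    refine intervalIntegral.integral_congr fun θ _ => ?_
    rw [intervalIntegral.integral_const_mul, ← hshift θ]
  rw [h1, swap2 _ _ (by positivity) (by positivity)]
  · refine intervalIntegral.integral_congr fun u _ => ?_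
    have hperG : Function.Periodic (fun θ => Ex n t θ * (starRingEnd ℂ) (Ex n t (θ - u)))
        (2 * Real.pi) := fun θ => by
      show Ex n t (θ + 2 * Real.pi) * (starRingEnd ℂ) (Ex n t (θ + 2 * Real.pi - u)) = _
      rw [ex_per n t θ, add_sub_right_comm, ex_per n t (θ - u)]
    have h2 := hperG.intervalIntegral_add_eq 0 (u / 2)
    rw [zero_add] at h2
    rw [h2, ← intervalIntegral.integral_congr fun θ _ => ex_mul n t θ u,
      intervalIntegral.integral_comp_add_right
        (fun θ : ℝ => Ex n t θ * (starRingEnd ℂ) (Ex n t (θ - u))) (u / 2), zero_add,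
      add_comm (u / 2)]
  · unfold uncurry Ex
    fun_prop

/-- the weighted mean square -/
theorem weighted {R : ℝ} (hR : 1 ≤ R) (n : ℤ) :
    ∫ t in (-R)..R, wt R t * ‖∫ θ in (0 : ℝ)..(2 * Real.pi), Ex n t θ‖ ^ 2 ≤
      960 * Real.log (1 + R * (2 * Real.pi)) := by
  have hpi := Real.pi_pos
  have hR0 : 0 < R := by linarith
  -- the integrand
  let P : ℝ → ℝ → ℝ → ℂ := fun t u θ =>
    (wt R t : ℂ) * (Complex.exp (Complex.I * ((n * u : ℝ) : ℂ)) *
      Complex.exp (Complex.I * ((t * (-(4 * Real.sin θ * Real.sin (u / 2))) : ℝ) : ℂ)))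
  have hP3 : Continuous fun p : (ℝ × ℝ) × ℝ => P p.1.1 p.1.2 p.2 := by
    simp only [P]
    unfold wt
    fun_prop
  have e1 : ((∫ t in (-R)..R, wt R t * ‖∫ θ in (0 : ℝ)..(2 * Real.pi), Ex n t θ‖ ^ 2 : ℝ) : ℂ) =
      ∫ t in (-R)..R, ∫ u in (0 : ℝ)..(2 * Real.pi), ∫ θ in (0 : ℝ)..(2 * Real.pi), P t u θ := by
    rw [← intervalIntegral.integral_ofReal]
    refine intervalIntegral.integral_congr fun t _ => ?_
    simp only [P]
    rw [Complex.ofReal_mul, sq_eq]
    simp only [intervalIntegral.integral_const_mul]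
  have e2 : (∫ t in (-R)..R, ∫ u in (0 : ℝ)..(2 * Real.pi), ∫ θ in (0 : ℝ)..(2 * Real.pi),
      P t u θ) = ∫ u in (0 : ℝ)..(2 * Real.pi), ∫ θ in (0 : ℝ)..(2 * Real.pi),
        ∫ t in (-R)..R, P t u θ := by
    rw [swap2 (fun t u => ∫ θ in (0 : ℝ)..(2 * Real.pi), P t u θ) _ (by linarith) (by positivity)]
    · refine intervalIntegral.integral_congr fun u _ => ?_
      rw [swap2 (fun t θ => P t u θ) _ (by linarith) (by positivity)]
      exact hP3.comp (by fun_prop : Continuous fun q : ℝ × ℝ => (((q.1, u), q.2) : (ℝ × ℝ) × ℝ))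
    · have := intervalIntegral.continuous_parametric_intervalIntegral_of_continuous'
        (f := fun (p : ℝ × ℝ) θ => P p.1 p.2 θ) (μ := volume) hP3 0 (2 * Real.pi)
      exact this
  have hin : ∀ u θ : ℝ, ‖∫ t in (-R)..R, P t u θ‖ ≤
      16 * R * (1 / (1 + (4 * R * |Real.sin (u / 2)|) ^ 2 * Real.sin θ ^ 2)) := by
    intro u θ
    have h1 : (∫ t in (-R)..R, P t u θ) = Complex.exp (Complex.I * ((n * u : ℝ) : ℂ)) *
        ∫ t in (-R)..R, (wt R t : ℂ) *
          Complex.exp (Complex.I * ((t * (-(4 * Real.sin θ * Real.sin (u / 2))) : ℝ) : ℂ)) := by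
      rw [← intervalIntegral.integral_const_mul]
      refine intervalIntegral.integral_congr fun t _ => ?_
      simp only [P]
      ring
    rw [h1, norm_mul, mul_comm Complex.I, Complex.norm_exp_ofReal_mul_I, one_mul]
    refine (wt_hat hR _).trans (le_of_eq ?_)
    rw [mul_one_div]
    congr 2
    rw [mul_pow (4 * R), sq_abs]
    ring
  have hcu : ∀ u : ℝ, Continuous fun θ : ℝ =>
      16 * R * (1 / (1 + (4 * R * |Real.sin (u / 2)|) ^ 2 * Real.sin θ ^ 2)) := by
    intro u
    refine continuous_const.mul (continuous_const.div (by fun_prop) fun x => ?_)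
    positivity
  have hmid : ∀ u : ℝ, ‖∫ θ in (0 : ℝ)..(2 * Real.pi), ∫ t in (-R)..R, P t u θ‖ ≤
      480 * R * (1 / (1 + 4 * R * |Real.sin (u / 2)|)) := by
    intro u
    have h1 := intervalIntegral.norm_integral_le_of_norm_le (μ := volume)
      (by positivity : (0 : ℝ) ≤ 2 * Real.pi) (Filter.Eventually.of_forall fun θ _ => hin u θ)
      ((hcu u).intervalIntegrable _ _)
    refine h1.trans ?_
    rw [intervalIntegral.integral_const_mul]
    have h2 := inner_bound (c := 4 * R * |Real.sin (u / 2)|) (by positivity)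
    have h3 := mul_le_mul_of_nonneg_left h2 (by positivity : (0 : ℝ) ≤ 16 * R)
    refine h3.trans (le_of_eq ?_)
    ring
  have hcm : Continuous fun u : ℝ => 480 * R * (1 / (1 + 4 * R * |Real.sin (u / 2)|)) := by
    refine continuous_const.mul (continuous_const.div (by fun_prop) fun x => ?_)
    positivity
  have h1 := intervalIntegral.norm_integral_le_of_norm_le (μ := volume)
    (by positivity : (0 : ℝ) ≤ 2 * Real.pi) (Filter.Eventually.of_forall fun u _ => hmid u)
    (hcm.intervalIntegrable _ _)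
  rw [← e2, ← e1, Complex.norm_real, intervalIntegral.integral_const_mul] at h1
  have h2 := mul_le_mul_of_nonneg_left (outer_bound hR0) (by positivity : (0 : ℝ) ≤ 480 * R)
  refine (Real.le_norm_self _).trans (h1.trans (h2.trans (le_of_eq ?_)))
  field_simp
  ring

/-- BE2 -/
theorem be2 : Be2Stmt := by
  have hpi := Real.pi_pos
  refine ⟨10240, by norm_num, fun T n hT => ?_⟩
  have hT0 : 0 < T := by linarith
  set R : ℝ := 4 * T with hR
  have hR1 : 1 ≤ R := by linarith
  let h : ℝ → ℝ := fun t => ‖∫ θ in (0 : ℝ)..(2 * Real.pi), Ex n t θ‖ ^ 2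
  have hh : Continuous h := by
    have := intervalIntegral.continuous_parametric_intervalIntegral_of_continuous'
      (f := fun t θ => Ex n t θ) (μ := volume) (ex_cont n) 0 (2 * Real.pi)
    exact this.norm.pow 2
  have hh0 : ∀ t, 0 ≤ h t := fun t => by positivity
  have hjb : ∀ t : ℝ, ‖jb t n‖ ^ 2 ≤ h t := by
    intro t
    have : jb t n = (∫ θ in (0 : ℝ)..(2 * Real.pi), Ex n t θ) / ((2 * Real.pi : ℝ) : ℂ) := rfl
    rw [this, norm_div, Complex.norm_real, Real.norm_of_nonneg (by positivity), div_pow]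
    apply div_le_self (hh0 t)
    have : 1 ≤ 2 * Real.pi := by linarith [Real.pi_gt_three]
    nlinarith
  have hjc : Continuous fun t : ℝ => ‖jb t n‖ ^ 2 := by
    have := intervalIntegral.continuous_parametric_intervalIntegral_of_continuous'
      (f := fun t θ => Ex n t θ) (μ := volume) (ex_cont n) 0 (2 * Real.pi)
    have h2 : Continuous fun t : ℝ => jb t n := this.div_const _
    exact h2.norm.pow 2
  have hwc : Continuous fun t => wt R t * h t := by
    refine Continuous.mul ?_ hh
    unfold wt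
    fun_prop
  have hw0 : ∀ t ∈ Icc (-R) R, 0 ≤ wt R t * h t := by
    intro t ht
    refine mul_nonneg ?_ (hh0 t)
    unfold wt
    have : t ^ 2 / R ^ 2 ≤ 1 := by
      rw [div_le_one (by positivity)]
      nlinarith [ht.1, ht.2]
    linarith
  have hW := weighted hR1 n
  -- the two halves
  have half : ∀ a b : ℝ, -(2 * T) ≤ a → a ≤ b → b ≤ 2 * T →
      ∫ t in a..b, h t ≤ 4 / 3 * ∫ t in (-R)..R, wt R t * h t := by
    intro a b ha hab hb
    have h1 : ∫ t in a..b, h t ≤ ∫ t in a..b, 4 / 3 * (wt R t * h t) := by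
      refine intervalIntegral.integral_mono_on hab (hh.intervalIntegrable _ _)
        ((hwc.const_smul (4 / 3 : ℝ)).intervalIntegrable _ _) fun t ht => ?_
      have h2 : 3 / 4 ≤ wt R t := by
        unfold wt
        have h3 : t ^ 2 / R ^ 2 ≤ 1 / 4 := by
          rw [div_le_div_iff₀ (by positivity) (by norm_num), hR]
          nlinarith [ht.1, ht.2]
        linarith
      nlinarith [hh0 t]
    rw [intervalIntegral.integral_const_mul] at h1
    have h2 : ∫ t in a..b, wt R t * h t ≤ ∫ t in (-R)..R, wt R t * h t := by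
      refine intervalIntegral.integral_mono_interval (by linarith) hab (by linarith) ?_
        (hwc.intervalIntegrable _ _)
      rw [Filter.EventuallyLE, ae_restrict_iff' measurableSet_Ioc]
      exact Filter.Eventually.of_forall fun t ht => hw0 t ⟨ht.1.le, ht.2⟩
    linarith
  have h1 : ∫ t in T..2 * T, (‖jb t n‖ ^ 2 + ‖jb (-t) n‖ ^ 2) ≤
      (∫ t in T..2 * T, h t) + ∫ t in T..2 * T, h (-t) := by
    have hn : Continuous fun t : ℝ => h (-t) := hh.comp continuous_neg
    rw [← intervalIntegral.integral_add (hh.intervalIntegrable _ _)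
      (hn.intervalIntegrable _ _)]
    exact intervalIntegral.integral_mono_on (by linarith)
      ((hjc.add (hjc.comp continuous_neg)).intervalIntegrable _ _)
      ((hh.add hn).intervalIntegrable _ _)
      fun t _ => add_le_add (hjb t) (hjb (-t))
  rw [intervalIntegral.integral_comp_neg] at h1
  have h2 := half T (2 * T) (by linarith) (by linarith) le_rfl
  have h3 := half (-(2 * T)) (-T) le_rfl (by linarith) (by linarith)
  have h4 : Real.log (1 + R * (2 * Real.pi)) ≤ 4 * (1 + Real.log T) := by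
    have e1 : 1 + R * (2 * Real.pi) ≤ 27 * T := by
      rw [hR]
      nlinarith [Real.pi_lt_d2]
    have e2 : Real.log (1 + R * (2 * Real.pi)) ≤ Real.log (27 * T) :=
      Real.log_le_log (by positivity) e1
    rw [Real.log_mul (by norm_num) hT0.ne'] at e2
    have e3 : Real.log 27 ≤ 4 := by
      rw [Real.log_le_iff_le_exp (by norm_num)]
      have h5 : (2.7 : ℝ) ≤ Real.exp 1 := by linarith [Real.exp_one_gt_d9]
      have h6 : Real.exp 4 = Real.exp 1 ^ 4 := by
        rw [← Real.exp_nat_mul]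
        norm_num
      rw [h6]
      have h7 : (2.7 : ℝ) ^ 4 ≤ Real.exp 1 ^ 4 := pow_le_pow_left₀ (by norm_num) h5 4
      norm_num at h7 ⊢
      linarith
    have e4 : 0 ≤ Real.log T := Real.log_nonneg hT
    linarith
  have hW2 : ∫ t in (-R)..R, wt R t * h t ≤ 960 * Real.log (1 + R * (2 * Real.pi)) := hW
  linarith

end Pool.Agent.LE.QD.H90

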